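import Pool.Agent.helper13.UN.SpecG

/-! Row `unh:REP` of project UN (MP_cf4097_nt): representatives of the classes, and generators. -/

set_option autoImplicit false

open NumberField Complex

namespace Pool.Agent.UN

theorem REP_D {K : Type} [Field K] [NumberField K] : differentIdeal ℤ (𝓞 K) ≠ ⊥ := by
  intro h
  have h1 := NumberField.absNorm_differentIdeal K (𝒪 := 𝓞 K)
  rw [h, Ideal.absNorm_bot] at h1
  exact Int.natAbs_ne_zero.2 (NumberField.discr_ne_zero K) h1.symm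

theorem REP (hCLS : CLS_stmt) (hPRO : PRO_stmt) : REP_stmt := by
  intro K _ _ f hf
  obtain ⟨b, hb, hbf⟩ := hCLS K f hf
  have hD := REP_D (K := K)
  have hJ : differentIdeal ℤ (𝓞 K) * f ≠ ⊥ := by
    intro h
    rcases Ideal.mul_eq_bot.mp h with h | h
    · exact hD h
    · exact hf h
  set J : nonZeroDivisors (Ideal (𝓞 K)) := ⟨differentIdeal ℤ (𝓞 K) * f, mem_nonZeroDivisors_iff_ne_zero.2 hJ⟩ with hJd
  let σ : ClassGroup (𝓞 K) ≃ ClassGroup (𝓞 K) := (Equiv.mulRight (ClassGroup.mk0 J)).trans (Equiv.inv _)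
  have hσ : ∀ c, σ c = (c * ClassGroup.mk0 J)⁻¹ := fun c => rfl
  have hpr : ∀ c, ∃ β : 𝓞 K, β ≠ 0 ∧ Ideal.span {β} = (b c * f) * b (σ c) * differentIdeal ℤ (𝓞 K) := by
    intro c
    obtain ⟨h1, h1'⟩ := hb c
    obtain ⟨h2, h2'⟩ := hb (σ c)
    let P : nonZeroDivisors (Ideal (𝓞 K)) := (⟨b c, mem_nonZeroDivisors_iff_ne_zero.2 h1⟩ : nonZeroDivisors (Ideal (𝓞 K))) *
        ⟨b (σ c), mem_nonZeroDivisors_iff_ne_zero.2 h2⟩ * J
    have e1 : ClassGroup.mk0 P = 1 := by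
      show ClassGroup.mk0 ((⟨b c, mem_nonZeroDivisors_iff_ne_zero.2 h1⟩ : nonZeroDivisors (Ideal (𝓞 K))) *
        ⟨b (σ c), mem_nonZeroDivisors_iff_ne_zero.2 h2⟩ * J) = 1
      rw [map_mul, map_mul, h1', h2', hσ, mul_right_comm, mul_inv_cancel]
    have e2 : (P : Ideal (𝓞 K)).IsPrincipal := (ClassGroup.mk0_eq_one_iff (I := (P : Ideal (𝓞 K))) P.2).mp e1
    have hne : ((b c * f) * b (σ c) * differentIdeal ℤ (𝓞 K)) ≠ ⊥ := by
      intro h
      rcases Ideal.mul_eq_bot.mp h with h | h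
      · rcases Ideal.mul_eq_bot.mp h with h | h
        · rcases Ideal.mul_eq_bot.mp h with h | h
          · exact h1 h
          · exact hf h
        · exact h2 h
      · exact hD h
    obtain ⟨g, hg⟩ := e2
    have e3 : (b c * f) * b (σ c) * differentIdeal ℤ (𝓞 K) = Ideal.span {g} := by
      rw [Ideal.submodule_span_eq] at hg
      rw [← hg]
      show _ = b c * b (σ c) * (differentIdeal ℤ (𝓞 K) * f)
      ring
    refine ⟨g, ?_, e3.symm⟩
    rintro rfl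
    rw [Ideal.span_singleton_eq_bot.mpr rfl] at e3
    exact hne e3
  choose β hβ0 hβ using hpr
  refine ⟨b, σ, β, hb, hbf, fun c => ⟨hβ0 c, hβ c, ?_⟩⟩
  obtain ⟨-, -, -, -, hmul, -, -⟩ := hPRO K
  have hN : Nm (differentIdeal ℤ (𝓞 K)) = Dc K := by
    unfold Nm Dc
    rw [NumberField.absNorm_differentIdeal K (𝒪 := 𝓞 K), ← Int.cast_abs, Int.abs_eq_natAbs]
    rfl
  rw [hβ c, hmul, hmul, hmul, hN]
  ring

end Pool.Agent.UN
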